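import Pool.Agent.H211.AD.Stm5

/-!
# Critical points are not in the interior of `K` (helper591, for project AD of helper211)
-/

set_option autoImplicit false

open Metric Set MeasureTheory Filter Topology

namespace Pool.Agent.H591.AD211

open Pool.Agent.H211.AD

section

variable {f : ℂ → ℂ} {U K : Set ℂ} {Cr : Finset ℂ} {ℓ : ℂ → ℕ} {δ₀ Cp rp c₀ μ : ℝ}

theorem nocr_KU (h : Sys f U K Cr ℓ δ₀ Cp rp c₀ μ) : K ⊆ U :=
  (self_subset_cthickening K).trans h.thick

theorem nocr_iter (h : Sys f U K Cr ℓ δ₀ Cp rp c₀ μ) (n : ℕ) :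
    ∀ z ∈ K, f^[n] z ∈ K ∧ DifferentiableAt ℂ f^[n] z := by
  induction n with
  | zero =>
    intro z hz
    exact ⟨hz, differentiableAt_id⟩
  | succ n ih =>
    intro z hz
    obtain ⟨h1, h2⟩ := ih z hz
    rw [Function.iterate_succ']
    refine ⟨h.fwd _ h1, ?_⟩
    have h3 : DifferentiableAt ℂ f (f^[n] z) :=
      h.diff.differentiableAt (h.openU.mem_nhds (nocr_KU h h1))
    exact h3.comp z h2

theorem nocr_open (h : Sys f U K Cr ℓ δ₀ Cp rp c₀ μ) {z : ℂ} (hz : z ∈ interior K)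
    (hne : ¬ ∀ᶠ w in 𝓝 z, f w = f z) : f z ∈ interior K := by
  have hU : U ∈ 𝓝 z := h.openU.mem_nhds (nocr_KU h (interior_subset hz))
  have han : AnalyticAt ℂ f z := h.diff.analyticAt hU
  rcases han.eventually_constant_or_nhds_le_map_nhds with h1 | h1
  · exact absurd h1 hne
  · rw [mem_interior_iff_mem_nhds]
    apply h1
    rw [mem_map]
    filter_upwards [mem_interior_iff_mem_nhds.1 hz] with w hw
    exact h.fwd w hw

theorem nocr_crit (h : Sys f U K Cr ℓ δ₀ Cp rp c₀ μ) (c : ℂ) (hc : c ∈ Cr) : c ∉ interior K := by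
  intro hint
  -- `f` is not constant near `c`
  have hne : ¬ ∀ᶠ w in 𝓝 c, f w = f c := by
    intro h1
    obtain ⟨r, hr, hr'⟩ := Metric.eventually_nhds_iff.1 h1
    obtain ⟨s, hs0, hs1, hs2⟩ : ∃ s : ℝ, 0 < s ∧ s < r ∧ s ≤ rp := by
      refine ⟨min (r / 2) rp, lt_min (by linarith) h.rp_pos, ?_, min_le_right _ _⟩
      exact (min_le_left _ _).trans_lt (by linarith)
    have h2 : ‖(c + (s : ℂ)) - c‖ = s := by
      rw [add_sub_cancel_left, Complex.norm_real, Real.norm_eq_abs, abs_of_pos hs0]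
    have h3 := (h.loc c hc (c + (s : ℂ)) (by rw [h2]; exact hs2)).2.2.1
    have h4 : f (c + (s : ℂ)) = f c := hr' (by rw [dist_eq_norm, h2]; exact hs1)
    rw [h2, h4, sub_self, norm_zero, mul_zero] at h3
    exact absurd h3 (not_le.2 (pow_pos hs0 _))
  have hfc := nocr_open h hint hne
  obtain ⟨r, hr, hrK⟩ := Metric.isOpen_iff.1 isOpen_interior _ hfc
  have hrK' : ball (f c) r ⊆ K := hrK.trans interior_subset
  obtain ⟨s, hs0, hsr⟩ : ∃ s : ℝ, 0 < s ∧ s < r := ⟨r / 2, by linarith, by linarith⟩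
  have hcb : closedBall (f c) s ⊆ K := (closedBall_subset_ball hsr).trans hrK'
  obtain ⟨B, hB⟩ := h.cpt.isBounded.exists_norm_le
  have key : ∀ n : ℕ, ‖deriv f^[n] (f c)‖ ≤ B / s := by
    intro n
    apply Complex.norm_deriv_le_of_forall_mem_sphere_norm_le hs0
    · apply DifferentiableOn.diffContOnCl
      intro z hz
      rw [closure_ball _ hs0.ne'] at hz
      exact (nocr_iter h n z (hcb hz)).2.differentiableWithinAt
    · intro z hz
      exact hB _ (nocr_iter h n z (hcb (sphere_subset_closedBall hz))).1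
  obtain ⟨n, hn⟩ := pow_unbounded_of_one_lt (B / s / c₀) h.μ_gt
  have h1 := (h.ce c hc n).trans (key n)
  rw [div_lt_iff₀ h.c₀_pos] at hn
  linarith

theorem nocr_deriv (h : Sys f U K Cr ℓ δ₀ Cp rp c₀ μ) (z : ℂ) (hz : z ∈ interior K) :
    deriv f z ≠ 0 := by
  intro h0
  have hzK := interior_subset hz
  rcases h.crit z (nocr_KU h hzK) h0 with h1 | h1
  · exact nocr_crit h z h1 hz
  · apply h1 0
    exact ⟨fun i hi => absurd hi (Nat.not_lt_zero i), self_subset_cthickening K hzK⟩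

theorem nocr_fwd (h : Sys f U K Cr ℓ δ₀ Cp rp c₀ μ) (z : ℂ) (hz : z ∈ interior K) :
    f z ∈ interior K := by
  apply nocr_open h hz
  intro h1
  apply nocr_deriv h z hz
  have h2 : f =ᶠ[𝓝 z] fun _ => f z := h1
  rw [h2.deriv_eq, deriv_const]

theorem nocr_bwd (h : Sys f U K Cr ℓ δ₀ Cp rp c₀ μ) (z : ℂ) (hz : z ∈ U)
    (hfz : f z ∈ interior K) : z ∈ interior K := by
  have hU : U ∈ 𝓝 z := h.openU.mem_nhds hz
  have hcont : ContinuousAt f z := (h.diff.differentiableAt hU).continuousAt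
  rw [mem_interior_iff_mem_nhds]
  filter_upwards [hU, hcont.preimage_mem_nhds (mem_interior_iff_mem_nhds.1 hfz)] with w hw1 hw2
  exact h.bwd w hw1 hw2

end

theorem t_NOCR : S_NOCR := by
  intro f U K Cr ℓ δ₀ Cp rp c₀ μ h
  refine ⟨nocr_crit h, nocr_deriv h, nocr_fwd h, nocr_bwd h, ?_⟩
  have hfr : ∀ z, z ∈ frontier K ↔ z ∈ K ∧ z ∉ interior K := by
    intro z
    rw [h.cpt.isClosed.frontier_eq]
    rfl
  intro z hz n
  induction n with
  | zero => exact hz
  | succ n ih =>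
    rw [Function.iterate_succ', Function.comp_apply]
    rw [hfr] at ih ⊢
    exact ⟨h.fwd _ ih.1, fun h1 => ih.2 (nocr_bwd h _ (nocr_KU h ih.1) h1)⟩

end Pool.Agent.H591.AD211
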